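import Pool.Agent.H12.ZR.T
import Pool.Agent.H87.ZF.Z1

/-!
Board zr, row BRB: few forms do not satisfy Ramanujan's bounds up to `e` at the small primes.
-/

set_option autoImplicit false

namespace Pool.Agent.H78.ZR

open MeasureTheory Pool.Agent.H27.L1.H34.GM Pool.Agent.H27.L1.H34.GZ Pool.Agent.H27.L1.H34.GU
  Pool.Agent.H27.L1.H34.GA Pool.Agent.H27.ZF Pool.Agent.H68.ZS Pool.Agent.H12.ZR

/-- the deterministic part: a large coefficient at a prime power near `Q` -/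
theorem large_coeff (m J0 : ℕ) (e c Q : ℝ) (lam : ℕ → ℂ) (q : ℕ → ℕ → ℂ) (hm : 1 ≤ m)
    (he : 0 < e) (hc : 0 < c) (hcm : c * m ≤ 1 / 2) (hcJ : c * (J0 + 1) ≤ 1) (hJm : 2 * m ≤ J0)
    (hQ : 1 ≤ Q) (hE : Eul m lam q)
    (hJ0 : ∀ (J : ℕ) (h q : ℕ → ℂ) (B : ℝ), Inv m h q → 0 < B → J0 ≤ J →
      (∀ r, r < m → ‖h (J - r)‖ ≤ B ^ (J - r)) →
      ∀ k, ‖h k‖ ≤ ((m + k).choose k : ℝ) * (2 ^ (e / 2) * B) ^ k)
    (hbad : ¬ Rb m lam (Q ^ c) e) :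
    ∃ p : ℕ, p.Prime ∧ (p : ℝ) ≤ Q ^ c ∧ ∃ r, r < m ∧
      Q ^ (e / 2) ≤ ‖lam (p ^ (Nat.log p ⌊Q⌋₊ - r))‖ ^ 2 := by
  by_contra hcon
  push Not at hcon
  refine hbad ?_
  intro p hp hpz k
  have hcon := hcon p hp hpz
  have hQ0 : 0 < Q := by linarith
  have hp2 : (2 : ℝ) ≤ p := by exact_mod_cast hp.two_le
  have hp0 : (0 : ℝ) < p := by linarith
  have hp1 : (1 : ℝ) ≤ p := by linarith
  set J : ℕ := Nat.log p ⌊Q⌋₊ with hJ
  have hfl : 1 ≤ ⌊Q⌋₊ := Nat.le_floor (by simpa using hQ)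
  have hJQ : (p : ℝ) ^ J ≤ Q := by
    have h1 : p ^ J ≤ ⌊Q⌋₊ := Nat.pow_log_le_self p (by omega)
    calc (p : ℝ) ^ J = ((p ^ J : ℕ) : ℝ) := by push_cast; rfl
      _ ≤ (⌊Q⌋₊ : ℝ) := by exact_mod_cast h1
      _ ≤ Q := Nat.floor_le hQ0.le
  have hJQ2 : Q < (p : ℝ) ^ (J + 1) := by
    have h1 : ⌊Q⌋₊ < p ^ (J + 1) := Nat.lt_pow_succ_log_self hp.one_lt _
    have h2 : ⌊Q⌋₊ + 1 ≤ p ^ (J + 1) := h1
    calc Q < (⌊Q⌋₊ : ℝ) + 1 := Nat.lt_floor_add_one Q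
      _ ≤ (p : ℝ) ^ (J + 1) := by exact_mod_cast h2
  have hJ0J : J0 ≤ J := by
    by_contra hlt
    have h1 : (p : ℝ) ^ (J + 1) ≤ (p : ℝ) ^ (J0 + 1) := pow_le_pow_right₀ hp1 (by omega)
    have h2 : (p : ℝ) ^ (J0 + 1) ≤ (Q ^ c) ^ (J0 + 1) := pow_le_pow_left₀ hp0.le hpz _
    have h3 : (Q ^ c) ^ (J0 + 1) ≤ Q := by
      rw [← Real.rpow_natCast, ← Real.rpow_mul hQ0.le]
      calc Q ^ (c * ((J0 + 1 : ℕ) : ℝ)) ≤ Q ^ (1 : ℝ) := by
            refine Real.rpow_le_rpow_of_exponent_le hQ ?_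
            push_cast
            exact hcJ
        _ = Q := Real.rpow_one _
    linarith
  set B : ℝ := (p : ℝ) ^ (e / 2) with hB
  have hB0 : 0 < B := Real.rpow_pos_of_pos hp0 _
  have key : ∀ r, r < m → ‖lam (p ^ (J - r))‖ ≤ B ^ (J - r) := by
    intro r hr
    have h1 := hcon r hr
    have h2 : Q ^ (e / 2) ≤ (B ^ (J - r)) ^ 2 := by
      -- `Q ≤ p ^ (2 (J - r))`
      have h3 : Q ≤ (p : ℝ) ^ (2 * (J - r)) := by
        calc Q ≤ (p : ℝ) ^ (J + 1) := hJQ2.le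
          _ ≤ (p : ℝ) ^ (2 * (J - r)) := pow_le_pow_right₀ hp1 (by omega)
      calc Q ^ (e / 2) ≤ ((p : ℝ) ^ (2 * (J - r))) ^ (e / 2) :=
            Real.rpow_le_rpow hQ0.le h3 (by linarith)
        _ = (B ^ (J - r)) ^ 2 := by
            rw [hB, ← pow_mul, ← Real.rpow_natCast (p : ℝ) (2 * (J - r)), ← Real.rpow_mul hp0.le,
              ← Real.rpow_natCast ((p : ℝ) ^ (e / 2)) ((J - r) * 2), ← Real.rpow_mul hp0.le]
            congr 1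
            push_cast
            ring
    exact le_of_sq_le_sq (h1.le.trans h2) (by positivity)
  have h4 := hJ0 J (fun k => lam (p ^ k)) (q p) B (hE.loc p hp) hB0 hJ0J key k
  refine h4.trans (mul_le_mul_of_nonneg_left ?_ (by positivity))
  have e1 : 2 ^ (e / 2) * B ≤ (p : ℝ) ^ e := by
    calc 2 ^ (e / 2) * B ≤ (p : ℝ) ^ (e / 2) * B :=
          mul_le_mul_of_nonneg_right (Real.rpow_le_rpow (by norm_num) hp2 (by linarith)) hB0.le
      _ = (p : ℝ) ^ e := by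
          rw [hB, ← Real.rpow_add hp0]
          congr 1
          ring
  calc (2 ^ (e / 2) * B) ^ k ≤ ((p : ℝ) ^ e) ^ k := pow_le_pow_left₀ (by positivity) e1 k
    _ = (p : ℝ) ^ (k * e) := by
        rw [← Real.rpow_natCast ((p : ℝ) ^ e) k, ← Real.rpow_mul hp0.le]
        congr 1
        ring

theorem pf_BRB (hSNG : T_SNG) (hEUL : Pool.Agent.H27.ZF.T_EUL) (hLOS : T_LOS) : T_BRB := by
  classical
  intro m e hm he
  have hm1 : (1 : ℝ) ≤ m := by exact_mod_cast hm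
  have hm0 : (0 : ℝ) < m := by linarith
  have hρ : (1 : ℝ) < 2 ^ (e / 2) := Real.one_lt_rpow (by norm_num) (by linarith)
  obtain ⟨J0, hJ0m, hJ0⟩ := hLOS m (2 ^ (e / 2)) hm hρ
  obtain ⟨C1, hC1, hS⟩ := hSNG m (e / 8) hm (by linarith)
  obtain ⟨c, hc0, hce, hcm, hcJ⟩ : ∃ c : ℝ, 0 < c ∧ c ≤ e / 8 ∧ c * m ≤ 1 / 2 ∧
      c * (J0 + 1) ≤ 1 := by
    have hJp : (0 : ℝ) < J0 + 1 := by positivity
    refine ⟨min (e / 8) (min (1 / (2 * m)) (1 / (J0 + 1))), ?_, min_le_left _ _, ?_, ?_⟩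
    · exact lt_min (by linarith) (lt_min (by positivity) (by positivity))
    · calc min (e / 8) (min (1 / (2 * m)) (1 / ((J0 : ℝ) + 1))) * m ≤ 1 / (2 * m) * m :=
            mul_le_mul_of_nonneg_right ((min_le_right _ _).trans (min_le_left _ _)) hm0.le
        _ = 1 / 2 := by field_simp
    · calc min (e / 8) (min (1 / (2 * m)) (1 / ((J0 : ℝ) + 1))) * (J0 + 1) ≤
            1 / (J0 + 1) * (J0 + 1) :=
            mul_le_mul_of_nonneg_right ((min_le_right _ _).trans (min_le_right _ _)) hJp.le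
        _ = 1 := by field_simp
  refine ⟨c, m * C1, hc0, by positivity, ?_⟩
  intro N _ T D hSys P hP S _ _ F lam W hF
  have hN1 : (1 : ℝ) ≤ N := by exact_mod_cast (NeZero.one_le (n := N))
  have hN0 : (0 : ℝ) < N := by linarith
  have hP0 : 0 < P := by linarith
  have hnz : ∀ i, NZ (F i) := fun i =>
    Pool.Agent.H69.ZN.nz_of_one hSys (Pool.Agent.H87.ZF.nU_of_orthn hF.orth i)
  have hE : ∀ i, ∃ q : ℕ → ℕ → ℂ, Eul m (lam i) q := fun i =>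
    hEUL m N T D hSys (F i) (lam i) (hF.cus i).1.toHecA (hnz i)
  obtain ⟨Q, hQ⟩ : ∃ Q : ℝ, Q = (N : ℝ) * P ^ m := ⟨_, rfl⟩
  have hPm : 1 ≤ P ^ m := one_le_pow₀ hP
  have hQ1 : 1 ≤ Q := by
    rw [hQ]
    calc (1 : ℝ) = 1 * 1 := (one_mul _).symm
      _ ≤ N * P ^ m := mul_le_mul hN1 hPm zero_le_one (by positivity)
  have hQp : 0 < Q := by linarith
  have hNP : ((N : ℝ) * P) ^ (e / 8) ≤ Q ^ (e / 8) := by
    refine Real.rpow_le_rpow (by positivity) ?_ (by linarith)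
    rw [hQ]
    refine mul_le_mul_of_nonneg_left ?_ hN0.le
    calc P = P ^ 1 := (pow_one _).symm
      _ ≤ P ^ m := pow_le_pow_right₀ hP hm
  have hQm : (N : ℝ) ^ m * P ^ (m ^ 2) = Q ^ (m : ℝ) := by
    rw [Real.rpow_natCast, hQ, mul_pow, ← pow_mul, sq]
  rw [← hQ]
  have hX : 0 < Q ^ (e / 2) := Real.rpow_pos_of_pos hQp _
  obtain ⟨I, hI⟩ : ∃ I : Finset ℕ, I = (Finset.Icc 1 ⌊Q ^ c⌋₊).filter Nat.Prime := ⟨_, rfl⟩
  have hIc : (I.card : ℝ) ≤ Q ^ c := by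
    have h1 : I.card ≤ ⌊Q ^ c⌋₊ := by
      rw [hI]
      refine (Finset.card_filter_le _ _).trans ?_
      simp
    calc (I.card : ℝ) ≤ (⌊Q ^ c⌋₊ : ℝ) := by exact_mod_cast h1
      _ ≤ Q ^ c := Nat.floor_le (by positivity)
  -- one form
  have key : ∀ i, (if Rb m (lam i) (Q ^ c) e then 0 else W i) ≤
      ∑ p ∈ I, ∑ r ∈ Finset.range m,
        W i * ‖lam i (p ^ (Nat.log p ⌊Q⌋₊ - r))‖ ^ 2 / Q ^ (e / 2) := by
    intro i
    have hW := hF.nn i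
    have hnn : ∀ p ∈ I, 0 ≤ ∑ r ∈ Finset.range m,
        W i * ‖lam i (p ^ (Nat.log p ⌊Q⌋₊ - r))‖ ^ 2 / Q ^ (e / 2) := fun p _ =>
      Finset.sum_nonneg fun r _ => by positivity
    split_ifs with hR
    · exact Finset.sum_nonneg hnn
    · obtain ⟨q, hq⟩ := hE i
      obtain ⟨p, hp, hpc, r, hr, hlar⟩ := large_coeff m J0 e c Q (lam i) q hm he hc0 hcm hcJ hJ0m
        hQ1 hq (fun J h q B h1 h2 h3 h4 => hJ0 J h q B h1 h2 h3 h4) hR
      have hpI : p ∈ I := by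
        rw [hI, Finset.mem_filter, Finset.mem_Icc]
        exact ⟨⟨hp.one_le, Nat.le_floor hpc⟩, hp⟩
      calc W i = W i * Q ^ (e / 2) / Q ^ (e / 2) := by field_simp
        _ ≤ W i * ‖lam i (p ^ (Nat.log p ⌊Q⌋₊ - r))‖ ^ 2 / Q ^ (e / 2) := by
            refine div_le_div_of_nonneg_right ?_ hX.le
            exact mul_le_mul_of_nonneg_left hlar hW
        _ ≤ ∑ r ∈ Finset.range m,
            W i * ‖lam i (p ^ (Nat.log p ⌊Q⌋₊ - r))‖ ^ 2 / Q ^ (e / 2) :=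
          Finset.single_le_sum (f := fun r =>
            W i * ‖lam i (p ^ (Nat.log p ⌊Q⌋₊ - r))‖ ^ 2 / Q ^ (e / 2))
            (fun r _ => by positivity) (Finset.mem_range.2 hr)
        _ ≤ _ := Finset.single_le_sum (f := fun p => ∑ r ∈ Finset.range m,
            W i * ‖lam i (p ^ (Nat.log p ⌊Q⌋₊ - r))‖ ^ 2 / Q ^ (e / 2)) hnn hpI
  -- one coefficient
  have hone : ∀ p ∈ I, ∀ r ∈ Finset.range m,
      (∑ i, W i * ‖lam i (p ^ (Nat.log p ⌊Q⌋₊ - r))‖ ^ 2) * P ≤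
        C1 * Q ^ (e / 8) * Q ^ (m : ℝ) := by
    intro p hp r _
    rw [hI, Finset.mem_filter] at hp
    have hpp := hp.2
    have hn1 : 1 ≤ p ^ (Nat.log p ⌊Q⌋₊ - r) := Nat.one_le_pow _ _ hpp.pos
    have hfl : 1 ≤ ⌊Q⌋₊ := Nat.le_floor (by simpa using hQ1)
    have hn2 : ((p ^ (Nat.log p ⌊Q⌋₊ - r) : ℕ) : ℝ) ≤ N * P ^ m := by
      rw [← hQ]
      have h1 : p ^ (Nat.log p ⌊Q⌋₊ - r) ≤ ⌊Q⌋₊ :=
        (Nat.pow_le_pow_right hpp.pos (Nat.sub_le _ _)).trans (Nat.pow_log_le_self p (by omega))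
      calc ((p ^ (Nat.log p ⌊Q⌋₊ - r) : ℕ) : ℝ) ≤ (⌊Q⌋₊ : ℝ) := by exact_mod_cast h1
        _ ≤ Q := Nat.floor_le hQp.le
    have h2 := hS N T D hSys P hP S F lam W hF (p ^ (Nat.log p ⌊Q⌋₊ - r)) hn1 hn2
    rw [hQm] at h2
    refine h2.trans ?_
    refine mul_le_mul_of_nonneg_right ?_ (by positivity)
    exact mul_le_mul_of_nonneg_left hNP hC1.le
  calc (∑ i, (if Rb m (lam i) (Q ^ c) e then 0 else W i)) * P
      ≤ (∑ i, ∑ p ∈ I, ∑ r ∈ Finset.range m,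
          W i * ‖lam i (p ^ (Nat.log p ⌊Q⌋₊ - r))‖ ^ 2 / Q ^ (e / 2)) * P :=
        mul_le_mul_of_nonneg_right (Finset.sum_le_sum fun i _ => key i) hP0.le
    _ = ∑ p ∈ I, ∑ r ∈ Finset.range m,
          (∑ i, W i * ‖lam i (p ^ (Nat.log p ⌊Q⌋₊ - r))‖ ^ 2) * P / Q ^ (e / 2) := by
        rw [Finset.sum_comm, Finset.sum_mul]
        refine Finset.sum_congr rfl fun p _ => ?_
        rw [Finset.sum_comm, Finset.sum_mul]
        refine Finset.sum_congr rfl fun r _ => ?_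
        rw [← Finset.sum_div]
        ring
    _ ≤ ∑ p ∈ I, ∑ r ∈ Finset.range m, C1 * Q ^ (e / 8) * Q ^ (m : ℝ) / Q ^ (e / 2) :=
        Finset.sum_le_sum fun p hp => Finset.sum_le_sum fun r hr =>
          div_le_div_of_nonneg_right (hone p hp r hr) hX.le
    _ = I.card * (m * (C1 * Q ^ (e / 8) * Q ^ (m : ℝ) / Q ^ (e / 2))) := by
        rw [Finset.sum_const, Finset.sum_const, Finset.card_range, nsmul_eq_mul, nsmul_eq_mul]
    _ ≤ Q ^ c * (m * (C1 * Q ^ (e / 8) * Q ^ (m : ℝ) / Q ^ (e / 2))) :=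
        mul_le_mul_of_nonneg_right hIc (by positivity)
    _ = m * C1 * Q ^ (c + e / 8 + m - e / 2) := by
        rw [Real.rpow_sub hQp, Real.rpow_add hQp, Real.rpow_add hQp]
        ring
    _ ≤ m * C1 * Q ^ ((m : ℝ) - c) := by
        refine mul_le_mul_of_nonneg_left ?_ (by positivity)
        exact Real.rpow_le_rpow_of_exponent_le hQ1 (by linarith)

end Pool.Agent.H78.ZR
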